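import Mathlib

/-!
# MP_773c46_pr, Q1: zero-range processes can explode from finite asymptotic density

`d = 1`.  For every nondecreasing unbounded rate function `g` with `g 0 = 0` and
`∑ 1 / g n = ∞` (for instance `g n = n`, and also superlinear ones such as
`g n = n (log₂ n + 1)`) there are a translation invariant jump kernel `p` on `ℤ` and a
configuration `η` of finite asymptotic density such that the zero-range process started
from `η` explodes: at every time `t > 0`, almost surely `η_t(0) = lim_n η^n_t(0) = ∞`.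

The zero-range processes `η^n` started from the truncated configurations are given by an
arbitrary probability space and arbitrary processes on it which satisfy Kolmogorov's
forward equation for the zero-range generator (this holds for the continuous-time Markov
chains of the problem), coupled monotonically in `n` (as in the basic coupling).
-/

open MeasureTheory Filter Topology Set

namespace Pool.Agent.Results.MP_773c46_pr.ZeroRangeExplosion

noncomputable section

/-- Configurations with finitely many particles on `ℤ`. -/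
abbrev Cfg := ℤ →₀ ℕ

/-- `η^{x,y}`: one particle moves from `x` to `y` (if there is one at `x`). -/
def move (x y : ℤ) (η : Cfg) : Cfg :=
  if η x = 0 then η else (η - Finsupp.single x 1) + Finsupp.single y 1

/-- The zero-range generator
`L f (η) = ∑_x ∑_y g(η(x)) p(y-x) (f(η^{x,y}) - f(η))` (the terms with `y = x` vanish). -/
def gen (g : ℕ → ℝ) (p : ℤ → ℝ) (f : Cfg → ℝ) (η : Cfg) : ℝ :=
  ∑ x ∈ η.support, g (η x) * ∑' y : ℤ, p (y - x) * (f (move x y η) - f η)

/-- `X` is (in the weak sense of its one-time laws) a zero-range process with rate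
function `g` and jump kernel `p` started from the finite configuration `ζ`: for every
bounded `f`, `t ↦ E f(X_t)` is differentiable on `[0,∞)` with derivative
`E (L f)(X_t)` (Kolmogorov's forward equation). -/
structure IsZeroRange {Ω : Type*} [MeasurableSpace Ω] (P : Measure Ω) (g : ℕ → ℝ)
    (p : ℤ → ℝ) (ζ : Cfg) (X : ℝ → Ω → Cfg) : Prop where
  meas : ∀ t, ∀ S : Set Cfg, MeasurableSet (X t ⁻¹' S)
  init : ∀ᵐ ω ∂P, X 0 ω = ζ
  forward : ∀ f : Cfg → ℝ, (∃ C, ∀ η, |f η| ≤ C) → ∀ t, 0 ≤ t →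
    Integrable (fun ω => gen g p f (X t ω)) P ∧
    HasDerivWithinAt (fun s => ∫ ω, f (X s ω) ∂P) (∫ ω, gen g p f (X t ω) ∂P) (Ici 0) t

/-- The configuration that agrees with `η` on `[-n,n]` and vanishes elsewhere. -/
def trunc (η : ℤ → ℕ) (n : ℕ) : Cfg :=
  Finsupp.onFinset (Finset.Icc (-(n : ℤ)) n)
    (fun x => if x ∈ Finset.Icc (-(n : ℤ)) (n : ℤ) then η x else 0)
    (fun x hx => by
      by_contra h
      exact hx (if_neg h))

/-- Finite asymptotic density:
`sup_n (2n+1)^{-1} ∑_{|x| ≤ n} η(x) < ∞` (equivalently, the `limsup` is finite). -/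
def FiniteDensity (η : ℤ → ℕ) : Prop :=
  ∃ C : ℝ, ∀ n : ℕ, ∑ x ∈ Finset.Icc (-(n : ℤ)) n, (η x : ℝ) ≤ C * (2 * n + 1)

/-- Explosion at the origin at every positive time: whenever the zero-range processes
`X n` started from the truncations of `η` live on one probability space and are coupled
monotonically, then for every `t > 0`, almost surely `lim_n X n t 0 = ∞`. -/
def Explodes (g : ℕ → ℝ) (p : ℤ → ℝ) (η : ℤ → ℕ) : Prop :=
  ∀ (Ω : Type) [MeasurableSpace Ω] (P : Measure Ω) [IsProbabilityMeasure P]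
    (X : ℕ → ℝ → Ω → Cfg),
    (∀ n, IsZeroRange P g p (trunc η n) (X n)) →
    (∀ n t, 0 ≤ t → ∀ᵐ ω ∂P, X n t ω ≤ X (n + 1) t ω) →
    ∀ t, 0 < t → ∀ᵐ ω ∂P, Tendsto (fun n => X n t ω 0) atTop atTop

/-! ### Generator estimates -/

lemma move_apply {x y a : ℤ} {η : Cfg} (h : η x ≠ 0) :
    move x y η a = η a - (if x = a then 1 else 0) + (if y = a then 1 else 0) := by
  unfold move
  rw [if_neg h]
  simp [Finsupp.single_apply]

lemma drift_le {h : ℕ → ℝ} (hh : Antitone h) {x y a : ℤ} {η : Cfg} (hx : η x ≠ 0) :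
    h (move x y η a) - h (η a) ≤ if x = a then h (η a - 1) - h (η a) else 0 := by
  rw [move_apply hx]
  split_ifs with h1 h2 h2
  · have : h (η a - 1 + 1) ≤ h (η a - 1) := hh (by omega)
    linarith
  · simp
  · have : h (η a - 0 + 1) ≤ h (η a) := hh (by omega)
    linarith
  · simp

lemma summable_inner {p : ℤ → ℝ} (hp0 : ∀ z, 0 ≤ p z) (hp1 : HasSum p 1) {f : Cfg → ℝ}
    {C : ℝ} (hC : ∀ η, |f η| ≤ C) (x : ℤ) (η : Cfg) :
    Summable (fun y : ℤ => p (y - x) * (f (move x y η) - f η)) := by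
  have h1 : Summable (fun y : ℤ => p (y - x) * (C + C)) := by
    have := (Equiv.subRight x).summable_iff.mpr hp1.summable
    exact (this.mul_right (C + C))
  refine Summable.of_norm_bounded h1 (fun y => ?_)
  rw [Real.norm_eq_abs, abs_mul, abs_of_nonneg (hp0 _)]
  refine mul_le_mul_of_nonneg_left ?_ (hp0 _)
  calc |f (move x y η) - f η| ≤ |f (move x y η)| + |f η| := abs_sub _ _
    _ ≤ C + C := add_le_add (hC _) (hC _)

lemma hasSum_shift {p : ℤ → ℝ} (hp1 : HasSum p 1) (x : ℤ) :
    HasSum (fun y : ℤ => p (y - x)) 1 := by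
  have := (Equiv.subRight x).hasSum_iff.mpr hp1
  exact this

lemma inner_le {p : ℤ → ℝ} (hp0 : ∀ z, 0 ≤ p z) (hp1 : HasSum p 1) {h : ℕ → ℝ} {C : ℝ}
    (hC : ∀ j, |h j| ≤ C) (hh : Antitone h) {x a : ℤ} {η : Cfg} (hx : η x ≠ 0) :
    ∑' y : ℤ, p (y - x) * (h (move x y η a) - h (η a)) ≤
      if x = a then h (η a - 1) - h (η a) else 0 := by
  have hs := summable_inner hp0 hp1 (f := fun η => h (η a)) (fun η => hC _) x η
  have h2 := (hasSum_shift hp1 x).mul_right (if x = a then h (η a - 1) - h (η a) else 0)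
  rw [one_mul] at h2
  rw [← h2.tsum_eq]
  exact hs.tsum_le_tsum (fun y => mul_le_mul_of_nonneg_left (drift_le hh hx) (hp0 _))
    h2.summable

lemma inner_le_feed {p : ℤ → ℝ} (hp0 : ∀ z, 0 ≤ p z) (hp1 : HasSum p 1) {h : ℕ → ℝ}
    {C : ℝ} (hC : ∀ j, |h j| ≤ C) (hh : Antitone h) {b a : ℤ} (hab : b ≠ a) {η : Cfg}
    (hx : η b ≠ 0) :
    ∑' y : ℤ, p (y - b) * (h (move b y η a) - h (η a)) ≤
      p (a - b) * (h (η a + 1) - h (η a)) := by
  have hs := summable_inner hp0 hp1 (f := fun η => h (η a)) (fun η => hC _) b η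
  have h2 : HasSum (fun y : ℤ => if y = a then p (a - b) * (h (η a + 1) - h (η a)) else 0)
      (p (a - b) * (h (η a + 1) - h (η a))) := hasSum_ite_eq a _
  rw [← h2.tsum_eq]
  refine hs.tsum_le_tsum (fun y => ?_) h2.summable
  by_cases hy : y = a
  · rw [if_pos hy, hy, move_apply hx, if_neg hab, if_pos rfl]
    simp
  · rw [if_neg hy]
    have := drift_le hh (x := b) (y := y) (a := a) hx
    rw [if_neg hab] at this
    exact mul_nonpos_of_nonneg_of_nonpos (hp0 _) this

lemma gen_le {g : ℕ → ℝ} (hg : ∀ n, 0 ≤ g n) {p : ℤ → ℝ} (hp0 : ∀ z, 0 ≤ p z)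
    (hp1 : HasSum p 1) {h : ℕ → ℝ} {C : ℝ} (hC : ∀ j, |h j| ≤ C) (hh : Antitone h)
    (hB : ∀ j, 1 ≤ j → g j * (h (j - 1) - h j) ≤ 1) (a : ℤ) (η : Cfg) :
    gen g p (fun η => h (η a)) η ≤ 1 := by
  unfold gen
  have h1 : ∀ x ∈ η.support,
      g (η x) * ∑' y : ℤ, p (y - x) * (h (move x y η a) - h (η a)) ≤
        if x = a then g (η a) * (h (η a - 1) - h (η a)) else 0 := by
    intro x hx
    have hx' : η x ≠ 0 := Finsupp.mem_support_iff.mp hx
    have := mul_le_mul_of_nonneg_left (inner_le hp0 hp1 hC hh (a := a) hx') (hg (η x))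
    refine this.trans (le_of_eq ?_)
    split_ifs with hxa
    · rw [hxa]
    · simp
  refine (Finset.sum_le_sum h1).trans ?_
  rw [Finset.sum_ite_eq' η.support a]
  split_ifs with ha
  · exact hB _ (Nat.one_le_iff_ne_zero.mpr (Finsupp.mem_support_iff.mp ha))
  · exact zero_le_one

lemma gen_le_feed {g : ℕ → ℝ} (hg : ∀ n, 0 ≤ g n) (hg0 : g 0 = 0) {p : ℤ → ℝ}
    (hp0 : ∀ z, 0 ≤ p z)
    (hp1 : HasSum p 1) {h : ℕ → ℝ} {C : ℝ} (hC : ∀ j, |h j| ≤ C) (hh : Antitone h)
    (hB : ∀ j, 1 ≤ j → g j * (h (j - 1) - h j) ≤ 1) {a b : ℤ} (hab : b ≠ a) (η : Cfg) :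
    gen g p (fun η => h (η a)) η ≤
      1 + g (η b) * (p (a - b) * (h (η a + 1) - h (η a))) := by
  unfold gen
  have h1 : ∀ x ∈ η.support,
      g (η x) * ∑' y : ℤ, p (y - x) * (h (move x y η a) - h (η a)) ≤
        (if x = a then g (η a) * (h (η a - 1) - h (η a)) else 0) +
        (if x = b then g (η b) * (p (a - b) * (h (η a + 1) - h (η a))) else 0) := by
    intro x hx
    have hx' : η x ≠ 0 := Finsupp.mem_support_iff.mp hx
    by_cases hxb : x = b
    · subst hxb
      rw [if_neg hab, if_pos rfl, zero_add]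
      exact mul_le_mul_of_nonneg_left (inner_le_feed hp0 hp1 hC hh hab hx') (hg _)
    · rw [if_neg hxb, add_zero]
      have := mul_le_mul_of_nonneg_left (inner_le hp0 hp1 hC hh (a := a) hx') (hg (η x))
      refine this.trans (le_of_eq ?_)
      split_ifs with hxa
      · rw [hxa]
      · simp
  refine (Finset.sum_le_sum h1).trans ?_
  rw [Finset.sum_add_distrib, Finset.sum_ite_eq' η.support a, Finset.sum_ite_eq' η.support b]
  refine add_le_add ?_ ?_
  · split_ifs with ha
    · exact hB _ (Nat.one_le_iff_ne_zero.mpr (Finsupp.mem_support_iff.mp ha))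
    · exact zero_le_one
  · split_ifs with hb
    · exact le_rfl
    · have : η b = 0 := Finsupp.notMem_support_iff.mp hb
      rw [this, hg0, zero_mul]

/-! ### Differential inequalities -/

lemma le_of_deriv_nonpos {u u' : ℝ → ℝ} {T : ℝ} (hT : 0 ≤ T)
    (h : ∀ t, 0 ≤ t → HasDerivWithinAt u (u' t) (Ici 0) t)
    (hn : ∀ t, 0 ≤ t → t ≤ T → u' t ≤ 0) : u T ≤ u 0 := by
  have hanti : AntitoneOn u (Icc 0 T) := by
    refine antitoneOn_of_deriv_nonpos (convex_Icc 0 T) ?_ ?_ ?_
    · intro t ht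
      exact ((h t ht.1).continuousWithinAt).mono Icc_subset_Ici_self
    · intro t ht
      rw [interior_Icc] at ht
      exact ((h t ht.1.le).hasDerivAt (Ici_mem_nhds ht.1)).differentiableAt.differentiableWithinAt
    · intro t ht
      rw [interior_Icc] at ht
      rw [((h t ht.1.le).hasDerivAt (Ici_mem_nhds ht.1)).deriv]
      exact hn t ht.1.le ht.2.le
  exact hanti (left_mem_Icc.mpr hT) (right_mem_Icc.mpr hT) hT

lemma le_add_of_deriv_le_one {u u' : ℝ → ℝ} {T : ℝ} (hT : 0 ≤ T)
    (h : ∀ t, 0 ≤ t → HasDerivWithinAt u (u' t) (Ici 0) t)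
    (hn : ∀ t, 0 ≤ t → t ≤ T → u' t ≤ 1) : u T ≤ u 0 + T := by
  have := le_of_deriv_nonpos (u := fun t => u t - t) (u' := fun t => u' t - 1) hT
    (fun t ht => (h t ht).sub (hasDerivWithinAt_id t _))
    (fun t ht htT => by have := hn t ht htT; linarith)
  linarith

lemma gronwall {u u' : ℝ → ℝ} {T c K : ℝ} (hT : 0 ≤ T)
    (h : ∀ t, 0 ≤ t → HasDerivWithinAt u (u' t) (Ici 0) t)
    (hn : ∀ t, 0 ≤ t → t ≤ T → u' t ≤ -c * (u t - K)) (hK : 0 ≤ K) (hu0 : u 0 ≤ 1) :
    u T ≤ K + Real.exp (-(c * T)) := by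
  have h1 := le_of_deriv_nonpos (u := fun t => Real.exp (c * t) * (u t - K))
    (u' := fun t => Real.exp (c * t) * c * (u t - K) + Real.exp (c * t) * u' t) hT
    (fun t ht => by
      have he : HasDerivWithinAt (fun t : ℝ => Real.exp (c * t)) (Real.exp (c * t) * c)
          (Ici 0) t := by
        have := ((hasDerivAt_id t).const_mul c).exp
        simp only [id, mul_one] at this
        exact this.hasDerivWithinAt
      exact he.mul ((h t ht).sub_const K))
    (fun t ht htT => by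
      have h2 := hn t ht htT
      have h3 : Real.exp (c * t) * u' t ≤ Real.exp (c * t) * (-c * (u t - K)) :=
        mul_le_mul_of_nonneg_left h2 (Real.exp_pos _).le
      nlinarith [h3])
  simp only [mul_zero, Real.exp_zero, one_mul] at h1
  have h4 : u T - K ≤ Real.exp (-(c * T)) * (u 0 - K) := by
    have h5 := mul_le_mul_of_nonneg_left h1 (Real.exp_pos (-(c * T))).le
    rwa [← mul_assoc, ← Real.exp_add, neg_add_cancel, Real.exp_zero, one_mul] at h5
  have h6 : Real.exp (-(c * T)) * (u 0 - K) ≤ Real.exp (-(c * T)) * 1 :=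
    mul_le_mul_of_nonneg_left (by linarith) (Real.exp_pos _).le
  linarith

/-! ### The two test functions -/

/-- Test function used at the origin. -/
def theta (g : ℕ → ℝ) (n : ℕ) : ℝ := ∏ i ∈ Finset.range (n + 2), (2 * (1 + g i))⁻¹

/-- Test function used at the piles. -/
def phi (g : ℕ → ℝ) (M n : ℕ) : ℝ := ∑ i ∈ Finset.Ico n M, 1 / g (i + 1)

section Test

variable {g : ℕ → ℝ} (hg : ∀ n, 0 ≤ g n)

include hg

lemma theta_pos (n : ℕ) : 0 < theta g n :=
  Finset.prod_pos fun i _ => inv_pos.mpr (by have := hg i; linarith)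

lemma factor_le (i : ℕ) : (2 * (1 + g i))⁻¹ ≤ 1 / 2 := by
  rw [one_div]
  exact inv_anti₀ (by norm_num) (by have := hg i; linarith)

lemma theta_succ_le (n : ℕ) : theta g (n + 1) ≤ theta g n / 2 := by
  have h1 : theta g (n + 1) = theta g n * (2 * (1 + g (n + 2)))⁻¹ := by
    unfold theta
    rw [Finset.prod_range_succ]
  rw [h1, div_eq_mul_one_div]
  exact mul_le_mul_of_nonneg_left (factor_le hg _) (theta_pos hg n).le

lemma theta_anti : Antitone (theta g) :=
  antitone_nat_of_succ_le fun n => by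
    have h1 := theta_succ_le hg n
    have h2 := theta_pos hg n
    linarith

lemma theta_le_one (n : ℕ) : theta g n ≤ 1 :=
  Finset.prod_le_one (fun i _ => inv_nonneg.mpr (by have := hg i; linarith))
    (fun i _ => (factor_le hg i).trans (by norm_num))

lemma theta_drift (j : ℕ) (hj : 1 ≤ j) : g j * (theta g (j - 1) - theta g j) ≤ 1 := by
  have h1 : theta g (j - 1) ≤ (2 * (1 + g j))⁻¹ := by
    unfold theta
    have : j - 1 + 2 = j + 1 := by omega
    rw [this, Finset.prod_range_succ]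
    have h2 : ∏ i ∈ Finset.range j, (2 * (1 + g i))⁻¹ ≤ 1 :=
      Finset.prod_le_one (fun i _ => inv_nonneg.mpr (by have := hg i; linarith))
        (fun i _ => (factor_le hg i).trans (by norm_num))
    have h3 : 0 ≤ (2 * (1 + g j))⁻¹ := inv_nonneg.mpr (by have := hg j; linarith)
    calc _ ≤ 1 * (2 * (1 + g j))⁻¹ := mul_le_mul_of_nonneg_right h2 h3
      _ = _ := one_mul _
  have h2 := theta_pos hg j
  have h3 : g j * (2 * (1 + g j))⁻¹ ≤ 1 := by
    rw [← div_eq_mul_inv, div_le_one (by have := hg j; linarith)]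
    have := hg j
    linarith
  calc g j * (theta g (j - 1) - theta g j) ≤ g j * (2 * (1 + g j))⁻¹ :=
        mul_le_mul_of_nonneg_left (by linarith) (hg j)
    _ ≤ 1 := h3

lemma phi_nonneg (M n : ℕ) : 0 ≤ phi g M n :=
  Finset.sum_nonneg fun _ _ => one_div_nonneg.mpr (hg _)

lemma phi_anti (M : ℕ) : Antitone (phi g M) := fun _ _ hab =>
  Finset.sum_le_sum_of_subset_of_nonneg (Finset.Ico_subset_Ico_left hab)
    (fun _ _ _ => one_div_nonneg.mpr (hg _))

omit hg in
lemma phi_drift (M j : ℕ) (hj : 1 ≤ j) : g j * (phi g M (j - 1) - phi g M j) ≤ 1 := by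
  obtain ⟨i, rfl⟩ : ∃ i, j = i + 1 := ⟨j - 1, by omega⟩
  rw [Nat.add_sub_cancel]
  by_cases hi : i < M
  · unfold phi
    rw [Finset.sum_eq_sum_Ico_succ_bot hi, add_sub_cancel_right]
    rw [mul_one_div]
    exact div_self_le_one _
  · unfold phi
    rw [Finset.Ico_eq_empty (by omega), Finset.Ico_eq_empty (by omega)]
    simp

end Test

/-! ### Estimates for the processes -/

section Process

variable {Ω : Type*} [MeasurableSpace Ω] {P : Measure Ω} [IsProbabilityMeasure P]
  {g : ℕ → ℝ} {p : ℤ → ℝ} {ζ : Cfg} {X : ℝ → Ω → Cfg}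

lemma integrable_comp (hX : IsZeroRange P g p ζ X) {f : Cfg → ℝ} {C : ℝ}
    (hC : ∀ η, |f η| ≤ C) (t : ℝ) : Integrable (fun ω => f (X t ω)) P := by
  refine Integrable.of_bound (C := C) ?_ (ae_of_all _ fun ω => ?_)
  · refine Measurable.aestronglyMeasurable ?_
    intro S _
    exact hX.meas t (f ⁻¹' S)
  · rw [Real.norm_eq_abs]
    exact hC _

lemma integral_init (hX : IsZeroRange P g p ζ X) (f : Cfg → ℝ) :
    ∫ ω, f (X 0 ω) ∂P = f ζ := by
  have : ∫ ω, f (X 0 ω) ∂P = ∫ _, f ζ ∂P := by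
    refine integral_congr_ae ?_
    filter_upwards [hX.init] with ω hω
    rw [hω]
  rw [this]
  simp

variable (hg : ∀ n, 0 ≤ g n) (hp0 : ∀ z, 0 ≤ p z) (hp1 : HasSum p 1)

include hg hp0 hp1

lemma pile_bound (hX : IsZeroRange P g p ζ X) {b : ℤ} {N : ℕ} {S : ℝ} (hS : 0 < S)
    (hN : S ≤ phi g (ζ b) N) {t : ℝ} (ht : 0 ≤ t) :
    P.real {ω | X t ω b < N} ≤ t / S := by
  set M := ζ b with hM
  have hC : ∀ j, |phi g M j| ≤ phi g M 0 := fun j => by
    rw [abs_of_nonneg (phi_nonneg hg M j)]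
    exact phi_anti hg M (Nat.zero_le j)
  have hC' : ∀ η : Cfg, |phi g M (η b)| ≤ phi g M 0 := fun η => hC _
  have h1 := le_add_of_deriv_le_one (u := fun s => ∫ ω, phi g M (X s ω b) ∂P)
    (u' := fun s => ∫ ω, gen g p (fun η => phi g M (η b)) (X s ω) ∂P) ht
    (fun s hs => (hX.forward (fun η => phi g M (η b)) ⟨_, hC'⟩ s hs).2)
    (fun s hs _ => by
      have h2 := (hX.forward (fun η => phi g M (η b)) ⟨_, hC'⟩ s hs).1
      calc ∫ ω, gen g p (fun η => phi g M (η b)) (X s ω) ∂P ≤ ∫ _, (1 : ℝ) ∂P :=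
            integral_mono h2 (integrable_const _)
              (fun ω => gen_le hg hp0 hp1 hC (phi_anti hg M) (phi_drift M) b _)
        _ = 1 := by simp)
  have h0 : ∫ ω, phi g M (X 0 ω b) ∂P = 0 := by
    rw [integral_init hX (fun η => phi g M (η b)), ← hM]
    simp [phi]
  simp only [h0, zero_add] at h1
  have hms : MeasurableSet {ω | X t ω b < N} := hX.meas t {η | η b < N}
  have h3 : S * P.real {ω | X t ω b < N} ≤ ∫ ω, phi g M (X t ω b) ∂P := by
    have h4 : S * P.real {ω | X t ω b < N} =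
        ∫ ω, ({ω | X t ω b < N} : Set Ω).indicator (fun _ => S) ω ∂P := by
      rw [integral_indicator hms, setIntegral_const, smul_eq_mul, mul_comm]
    rw [h4]
    refine integral_mono ((integrable_const S).indicator hms)
      (integrable_comp hX (f := fun η => phi g M (η b)) hC' t) (fun ω => ?_)
    by_cases hω : X t ω b < N
    · rw [indicator_of_mem (show ω ∈ {ω | X t ω b < N} from hω)]
      exact hN.trans (phi_anti hg M hω.le)
    · rw [indicator_of_notMem (show ω ∉ {ω | X t ω b < N} from hω)]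
      exact phi_nonneg hg M _
  rw [le_div_iff₀ hS, mul_comm]
  exact h3.trans h1

lemma origin_bound (hg0 : g 0 = 0) (hgm : Monotone g) (hX : IsZeroRange P g p ζ X)
    {b : ℤ} (hb : b ≠ 0) {N : ℕ} {S R : ℝ} (hS : 0 < S) (hR : 0 < R)
    (hN : S ≤ phi g (ζ b) N) (hRN : R ≤ g N * p (-b)) {t : ℝ} (ht : 0 ≤ t) :
    ∫ ω, theta g (X t ω 0) ∂P ≤ (2 / R + t / S) + Real.exp (-(R / 2 * t)) := by
  have hC : ∀ j, |theta g j| ≤ 1 := fun j => by
    rw [abs_of_nonneg (theta_pos hg j).le]
    exact theta_le_one hg j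
  have hC' : ∀ η : Cfg, |theta g (η 0)| ≤ 1 := fun η => hC _
  have hpt : ∀ η : Cfg, gen g p (fun η => theta g (η 0)) η ≤
      1 - R / 2 * theta g (η 0) + R / 2 * (({η : Cfg | η b < N} : Set Cfg).indicator
        (fun _ => (1 : ℝ)) η) := by
    intro η
    refine (gen_le_feed hg hg0 hp0 hp1 hC (theta_anti hg) (theta_drift hg) hb η).trans ?_
    have h1 := theta_succ_le hg (η 0)
    have h2 := theta_pos hg (η 0)
    have h3 := theta_le_one hg (η 0)
    rw [zero_sub]
    have h4 : g (η b) * (p (-b) * (theta g (η 0 + 1) - theta g (η 0))) ≤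
        g (η b) * p (-b) * (-(theta g (η 0) / 2)) := by
      rw [mul_assoc]
      exact mul_le_mul_of_nonneg_left
        (mul_le_mul_of_nonneg_left (by linarith) (hp0 _)) (hg _)
    by_cases hη : η b < N
    · rw [indicator_of_mem (show η ∈ {η : Cfg | η b < N} from hη)]
      have h5 : 0 ≤ g (η b) * p (-b) := mul_nonneg (hg _) (hp0 _)
      have h6 : g (η b) * p (-b) * (-(theta g (η 0) / 2)) ≤ 0 :=
        mul_nonpos_of_nonneg_of_nonpos h5 (by linarith)
      have h7 : R / 2 * theta g (η 0) ≤ R / 2 * 1 :=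
        mul_le_mul_of_nonneg_left h3 (by linarith)
      linarith
    · rw [indicator_of_notMem (show η ∉ {η : Cfg | η b < N} from hη)]
      have h5 : R ≤ g (η b) * p (-b) :=
        hRN.trans (mul_le_mul_of_nonneg_right (hgm (not_lt.mp hη)) (hp0 _))
      have h6 : g (η b) * p (-b) * (-(theta g (η 0) / 2)) ≤ R * (-(theta g (η 0) / 2)) :=
        mul_le_mul_of_nonpos_right h5 (by linarith)
      linarith
  refine gronwall (u := fun s => ∫ ω, theta g (X s ω 0) ∂P)
    (u' := fun s => ∫ ω, gen g p (fun η => theta g (η 0)) (X s ω) ∂P) ht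
    (fun s hs => (hX.forward (fun η => theta g (η 0)) ⟨_, hC'⟩ s hs).2) ?_ ?_ ?_
  · intro s hs hst
    have h2 := (hX.forward (fun η => theta g (η 0)) ⟨_, hC'⟩ s hs).1
    have hms : MeasurableSet {ω | X s ω b < N} := hX.meas s {η | η b < N}
    have hi1 := integrable_comp hX (f := fun η => theta g (η 0)) hC' s
    have hi2 : Integrable (fun ω => ({ω | X s ω b < N} : Set Ω).indicator
        (fun _ => (1 : ℝ)) ω) P := (integrable_const 1).indicator hms
    have h3 : ∫ ω, gen g p (fun η => theta g (η 0)) (X s ω) ∂P ≤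
        ∫ ω, (1 - R / 2 * theta g (X s ω 0) + R / 2 * (({ω | X s ω b < N} : Set Ω).indicator
        (fun _ => (1 : ℝ)) ω)) ∂P := by
      refine integral_mono h2 (((integrable_const _).sub (hi1.const_mul _)).add
        (hi2.const_mul _)) (fun ω => ?_)
      exact hpt (X s ω)
    have h4 : ∫ ω, (1 - R / 2 * theta g (X s ω 0) +
        R / 2 * (({ω | X s ω b < N} : Set Ω).indicator (fun _ => (1 : ℝ)) ω)) ∂P =
        1 - R / 2 * (∫ ω, theta g (X s ω 0) ∂P) + R / 2 * P.real {ω | X s ω b < N} := by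
      have hi3 : Integrable (fun ω => 1 - R / 2 * theta g (X s ω 0)) P :=
        (integrable_const (1 : ℝ)).sub (hi1.const_mul _)
      have hi4 : Integrable (fun ω => R / 2 * (({ω | X s ω b < N} : Set Ω).indicator
        (fun _ => (1 : ℝ)) ω)) P := hi2.const_mul _
      have hi5 : Integrable (fun ω => R / 2 * theta g (X s ω 0)) P := hi1.const_mul _
      rw [integral_add hi3 hi4, integral_sub (integrable_const _) hi5, integral_const_mul,
        integral_const_mul, integral_indicator hms, setIntegral_const]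
      simp
    have h5 := pile_bound hg hp0 hp1 hX hS hN hs
    have h6 : s / S ≤ t / S := div_le_div_of_nonneg_right hst hS.le
    have h7 : R / 2 * P.real {ω | X s ω b < N} ≤ R / 2 * (t / S) :=
      mul_le_mul_of_nonneg_left (h5.trans h6) (by linarith)
    have h8 : -(R / 2) * ((∫ ω, theta g (X s ω 0) ∂P) - (2 / R + t / S)) =
        1 - R / 2 * (∫ ω, theta g (X s ω 0) ∂P) + R / 2 * (t / S) := by
      field_simp
      ring
    rw [h8]
    linarith [h3, h4, h7]
  · positivity
  · rw [integral_init hX (fun η => theta g (η 0))]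
    exact theta_le_one hg _

end Process

/-! ### The kernel and the configuration -/

lemma exists_params {g : ℕ → ℝ} (hg : ∀ n, 0 ≤ g n) (htend : Tendsto g atTop atTop)
    (hns : ¬ Summable (fun n => 1 / g n)) :
    ∃ N M : ℕ → ℕ, (∀ k, (4 : ℝ) ^ (k + 1) ≤ g (N k)) ∧
      ∀ k, (2 : ℝ) ^ k ≤ phi g (M k) (N k) := by
  have h1 : ∀ k : ℕ, ∃ N, (4 : ℝ) ^ (k + 1) ≤ g N := fun k =>
    (htend.eventually_ge_atTop ((4 : ℝ) ^ (k + 1))).exists
  choose N hN using h1
  have hns' : ¬ Summable (fun n => 1 / g (n + 1)) := fun h =>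
    hns ((summable_nat_add_iff 1).mp h)
  have ht : Tendsto (fun n => ∑ i ∈ Finset.range n, 1 / g (i + 1)) atTop atTop :=
    (not_summable_iff_tendsto_nat_atTop_of_nonneg
      (fun n => one_div_nonneg.mpr (hg (n + 1)))).mp hns'
  have h2 : ∀ k : ℕ, ∃ M, (2 : ℝ) ^ k ≤ phi g M (N k) := by
    intro k
    obtain ⟨M, hM1, hM2⟩ := ((ht.eventually_ge_atTop ((2 : ℝ) ^ k +
      ∑ i ∈ Finset.range (N k), 1 / g (i + 1))).and (eventually_ge_atTop (N k))).exists
    refine ⟨M, ?_⟩
    unfold phi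
    rw [Finset.sum_Ico_eq_sub _ hM2]
    linarith
  choose M hM using h2
  exact ⟨N, M, hN, hM⟩

/-- Position of the `k`-th pile. -/
def pos (M : ℕ → ℕ) (k : ℕ) : ℕ := ∑ j ∈ Finset.range (k + 1), (M j + 1)

lemma pos_strictMono (M : ℕ → ℕ) : StrictMono (pos M) :=
  strictMono_nat_of_lt_succ fun k => by
    unfold pos
    rw [Finset.sum_range_succ _ (k + 1)]
    omega

lemma pos_pos (M : ℕ → ℕ) (k : ℕ) : 0 < pos M k := by
  unfold pos
  rw [Finset.sum_range_succ]
  omega

lemma lt_pos (M : ℕ → ℕ) (k : ℕ) : k < pos M k := by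
  induction k with
  | zero => exact pos_pos M 0
  | succ n ih =>
    have := pos_strictMono M (Nat.lt_add_one n)
    omega

lemma sum_le_pos (M : ℕ → ℕ) (k : ℕ) : ∑ j ∈ Finset.range (k + 1), M j ≤ pos M k :=
  Finset.sum_le_sum fun j _ => Nat.le_succ (M j)

/-- The jump kernel: `p(-y_k) = 2^{-(k+1)}`. -/
def ker (M : ℕ → ℕ) : ℤ → ℝ :=
  Function.extend (fun k : ℕ => -(pos M k : ℤ)) (fun k => (1 / 2 : ℝ) ^ (k + 1)) 0

/-- The initial configuration: `η(y_k) = M_k`. -/
def conf (M : ℕ → ℕ) : ℤ → ℕ := Function.extend (fun k : ℕ => (pos M k : ℤ)) M 0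

lemma inj_pos (M : ℕ → ℕ) : Function.Injective (fun k : ℕ => (pos M k : ℤ)) := fun _ _ h =>
  (pos_strictMono M).injective (Nat.cast_injective (R := ℤ) h)

lemma inj_neg (M : ℕ → ℕ) : Function.Injective (fun k : ℕ => -(pos M k : ℤ)) := fun _ _ h =>
  inj_pos M (neg_injective h)

lemma ker_apply (M : ℕ → ℕ) (k : ℕ) : ker M (-(pos M k : ℤ)) = (1 / 2 : ℝ) ^ (k + 1) :=
  (inj_neg M).extend_apply _ _ k

lemma ker_nonneg (M : ℕ → ℕ) (z : ℤ) : 0 ≤ ker M z := by
  by_cases h : ∃ k : ℕ, -(pos M k : ℤ) = z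
  · obtain ⟨k, rfl⟩ := h
    rw [ker_apply]
    positivity
  · unfold ker
    rw [Function.extend_apply' _ _ _ h]
    exact le_rfl

lemma ker_hasSum (M : ℕ → ℕ) : HasSum (ker M) 1 := by
  refine ((inj_neg M).hasSum_iff (fun z hz => ?_)).mp ?_
  · unfold ker
    rw [Function.extend_apply' _ _ _ hz]
    rfl
  · have h1 : (ker M ∘ fun k : ℕ => -(pos M k : ℤ)) = fun n : ℕ => (1 : ℝ) / 2 / 2 ^ n := by
      funext n
      simp only [Function.comp_apply, ker_apply]
      rw [one_div_pow, pow_succ]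
      field_simp
    rw [h1]
    exact hasSum_geometric_two' 1

lemma conf_apply (M : ℕ → ℕ) (k : ℕ) : conf M (pos M k : ℤ) = M k :=
  (inj_pos M).extend_apply _ _ k

lemma conf_density (M : ℕ → ℕ) : FiniteDensity (conf M) := by
  classical
  refine ⟨1, fun n => ?_⟩
  set S := (Finset.range (n + 1)).filter (fun k => pos M k ≤ n) with hS
  have h1 : ∑ x ∈ Finset.Icc (-(n : ℤ)) n, (conf M x : ℝ) =
      ∑ x ∈ S.image (fun k : ℕ => (pos M k : ℤ)), (conf M x : ℝ) := by
    symm
    refine Finset.sum_subset ?_ ?_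
    · intro x hx
      obtain ⟨k, hk, rfl⟩ := Finset.mem_image.mp hx
      have hk' := (Finset.mem_filter.mp hk).2
      rw [Finset.mem_Icc]
      constructor <;> omega
    · intro x hx hx2
      have hno : ¬ ∃ k : ℕ, (pos M k : ℤ) = x := by
        rintro ⟨k, rfl⟩
        apply hx2
        have h2 := (Finset.mem_Icc.mp hx).2
        have h3 : pos M k ≤ n := by omega
        have h4 := lt_pos M k
        exact Finset.mem_image.mpr ⟨k, Finset.mem_filter.mpr
          ⟨Finset.mem_range.mpr (by omega), h3⟩, rfl⟩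
      unfold conf
      rw [Function.extend_apply' _ _ _ hno]
      simp
  rw [h1, Finset.sum_image (fun a _ b _ h => inj_pos M h)]
  simp only [conf_apply]
  have h2 : ∑ k ∈ S, M k ≤ n := by
    rcases S.eq_empty_or_nonempty with he | hne
    · rw [he]
      simp
    · set K := S.max' hne with hK
      have hKS : K ∈ S := S.max'_mem hne
      have hsub : S ⊆ Finset.range (K + 1) := fun k hk =>
        Finset.mem_range.mpr (Nat.lt_succ_of_le (S.le_max' k hk))
      calc ∑ k ∈ S, M k ≤ ∑ k ∈ Finset.range (K + 1), M k :=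
            Finset.sum_le_sum_of_subset hsub
        _ ≤ pos M K := sum_le_pos M K
        _ ≤ n := (Finset.mem_filter.mp hKS).2
  have h3 : (∑ k ∈ S, (M k : ℝ)) ≤ n := by exact_mod_cast h2
  have h4 : (0 : ℝ) ≤ n := Nat.cast_nonneg n
  linarith

lemma trunc_apply (M : ℕ → ℕ) {k n : ℕ} (h : pos M k ≤ n) :
    trunc (conf M) n (pos M k : ℤ) = M k := by
  unfold trunc
  rw [Finsupp.onFinset_apply, if_pos, conf_apply]
  rw [Finset.mem_Icc]
  constructor <;> omega

/-! ### The main theorem -/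

lemma explodes {g : ℕ → ℝ} (hg0 : g 0 = 0) (hgm : Monotone g) {N M : ℕ → ℕ}
    (hN : ∀ k, (4 : ℝ) ^ (k + 1) ≤ g (N k)) (hM : ∀ k, (2 : ℝ) ^ k ≤ phi g (M k) (N k)) :
    Explodes g (ker M) (conf M) := by
  intro Ω _ P _ X hX hmono t ht
  have hg : ∀ n, 0 ≤ g n := fun n => hg0 ▸ hgm (Nat.zero_le n)
  -- the bound at the origin
  have hbound : ∀ k n : ℕ, pos M k ≤ n → ∫ ω, theta g (X n t ω 0) ∂P ≤
      (2 / 2 ^ (k + 1) + t / 2 ^ k) + Real.exp (-(2 ^ (k + 1) / 2 * t)) := by
    intro k n hn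
    refine origin_bound hg (ker_nonneg M) (ker_hasSum M) hg0 hgm (hX n)
      (b := (pos M k : ℤ)) (N := N k) ?_ (by positivity) (by positivity) ?_ ?_ ht.le
    · have := pos_pos M k
      omega
    · rw [trunc_apply M hn]
      exact hM k
    · rw [ker_apply]
      calc (2 : ℝ) ^ (k + 1) = 4 ^ (k + 1) * (1 / 2) ^ (k + 1) := by
            rw [← mul_pow]
            norm_num
        _ ≤ g (N k) * (1 / 2) ^ (k + 1) :=
            mul_le_mul_of_nonneg_right (hN k) (by positivity)
  have hlim : Tendsto (fun k : ℕ => (2 / 2 ^ (k + 1) + t / 2 ^ k) +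
      Real.exp (-(2 ^ (k + 1) / 2 * t))) atTop (𝓝 0) := by
    have h1 : Tendsto (fun k : ℕ => (2 : ℝ) ^ k) atTop atTop :=
      tendsto_pow_atTop_atTop_of_one_lt (by norm_num)
    have h2 : Tendsto (fun k : ℕ => (2 : ℝ) / 2 ^ (k + 1)) atTop (𝓝 0) :=
      Tendsto.div_atTop tendsto_const_nhds (h1.comp (tendsto_add_atTop_nat 1))
    have h3 : Tendsto (fun k : ℕ => t / (2 : ℝ) ^ k) atTop (𝓝 0) :=
      Tendsto.div_atTop tendsto_const_nhds h1
    have h4 : Tendsto (fun k : ℕ => (2 : ℝ) ^ (k + 1) / 2 * t) atTop atTop :=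
      ((h1.comp (tendsto_add_atTop_nat 1)).atTop_div_const (by norm_num)).atTop_mul_const ht
    have h5 : Tendsto (fun k : ℕ => Real.exp (-((2 : ℝ) ^ (k + 1) / 2 * t))) atTop (𝓝 0) :=
      Real.tendsto_exp_neg_atTop_nhds_zero.comp h4
    have := (h2.add h3).add h5
    simpa using this
  -- the limit is not bounded by `j`
  have hE : ∀ j : ℕ, ∀ᵐ ω ∂P, ∃ n, j < X n t ω 0 := by
    intro j
    rw [ae_iff]
    set E : Set Ω := {ω | ¬ ∃ n, j < X n t ω 0} with hEdef
    have hEeq : E = ⋂ n, {ω | X n t ω 0 ≤ j} := by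
      ext ω
      simp [hEdef, mem_iInter]
    have hEm : MeasurableSet E := by
      rw [hEeq]
      exact MeasurableSet.iInter fun n => (hX n).meas t {η | η 0 ≤ j}
    have h1 : ∀ n : ℕ, theta g j * P.real E ≤ ∫ ω, theta g (X n t ω 0) ∂P := by
      intro n
      have h2 : theta g j * P.real E = ∫ ω, E.indicator (fun _ => theta g j) ω ∂P := by
        rw [integral_indicator hEm, setIntegral_const, smul_eq_mul, mul_comm]
      rw [h2]
      refine integral_mono ((integrable_const _).indicator hEm)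
        (integrable_comp (hX n) (f := fun η => theta g (η 0)) (C := 1) (fun η => ?_) t)
        (fun ω => ?_)
      · rw [abs_of_nonneg (theta_pos hg _).le]
        exact theta_le_one hg _
      · by_cases hω : ω ∈ E
        · rw [indicator_of_mem hω]
          refine theta_anti hg ?_
          rw [hEeq] at hω
          exact (mem_iInter.mp hω n)
        · rw [indicator_of_notMem hω]
          exact (theta_pos hg _).le
    have h3 : theta g j * P.real E ≤ 0 :=
      ge_of_tendsto' hlim fun k => (h1 (pos M k)).trans (hbound k _ le_rfl)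
    have h4 : P.real E ≤ 0 := by
      by_contra h
      have := mul_pos (theta_pos hg j) (not_le.mp h)
      linarith
    have h5 : P.real E = 0 := le_antisymm h4 measureReal_nonneg
    exact (measureReal_eq_zero_iff).mp h5
  have hmono' : ∀ᵐ ω ∂P, ∀ n, X n t ω ≤ X (n + 1) t ω := by
    rw [ae_all_iff]
    exact fun n => hmono n t ht.le
  filter_upwards [ae_all_iff.mpr hE, hmono'] with ω h1 h2
  have hm : Monotone (fun n => X n t ω 0) := monotone_nat_of_le_succ fun n => h2 n 0
  refine tendsto_atTop_atTop_of_monotone hm (fun j => ?_)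
  obtain ⟨n, hn⟩ := h1 j
  exact ⟨n, hn.le⟩

/-- A superlinear rate function with `∑ 1 / g n = ∞`. -/
def gSup (n : ℕ) : ℝ := ((n * (Nat.log 2 n + 1) : ℕ) : ℝ)

lemma gSup_mono : Monotone gSup := fun a b hab => by
  unfold gSup
  exact_mod_cast Nat.mul_le_mul hab (Nat.add_le_add_right (Nat.log_mono_right hab) 1)

lemma log_tendsto : Tendsto (fun n : ℕ => Nat.log 2 n) atTop atTop := by
  refine tendsto_atTop_atTop_of_monotone (fun a b hab => Nat.log_mono_right hab) (fun b => ?_)
  refine ⟨2 ^ b, ?_⟩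
  rw [Nat.log_pow (by norm_num)]

lemma gSup_superlinear : Tendsto (fun n => gSup n / n) atTop atTop := by
  have h1 : Tendsto (fun n : ℕ => ((Nat.log 2 n + 1 : ℕ) : ℝ)) atTop atTop :=
    tendsto_natCast_atTop_atTop.comp (tendsto_add_atTop_nat 1 |>.comp log_tendsto)
  refine h1.congr' ?_
  filter_upwards [eventually_gt_atTop 0] with n hn
  unfold gSup
  have : (n : ℝ) ≠ 0 := by positivity
  push_cast
  field_simp

lemma gSup_tendsto : Tendsto gSup atTop atTop := by
  refine tendsto_atTop_mono (fun n => ?_) tendsto_natCast_atTop_atTop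
  unfold gSup
  exact_mod_cast Nat.le_mul_of_pos_right n (by omega)

lemma gSup_not_summable : ¬ Summable (fun n => 1 / gSup n) := by
  intro h
  have h1 := (summable_condensed_iff_of_nonneg (f := fun n => 1 / gSup n)
    (fun n => one_div_nonneg.mpr (by unfold gSup; positivity))
    (fun {m n} hm hmn => by
      have hpos : 0 < gSup m := by
        unfold gSup
        exact_mod_cast Nat.mul_pos hm (Nat.succ_pos _)
      exact one_div_le_one_div_of_le hpos (gSup_mono hmn))).mpr h
  have h2 : (fun k : ℕ => (2 : ℝ) ^ k * (1 / gSup (2 ^ k))) = fun k : ℕ =>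
      1 / ((k + 1 : ℕ) : ℝ) := by
    funext k
    unfold gSup
    rw [Nat.log_pow (by norm_num)]
    push_cast
    field_simp
  rw [h2] at h1
  have h3 : Summable (fun k : ℕ => 1 / (k : ℝ)) := (summable_nat_add_iff 1).mp h1
  exact Real.not_summable_one_div_natCast h3

/-- **Answer to Q1 (disproof, in dimension one).**
(a) For every rate function `g` as in the problem with `∑ 1 / g n = ∞` there are a jump
kernel `p` on `ℤ` and a configuration `η` of finite asymptotic density such that the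
zero-range process started from `η` explodes: for every `t > 0`, almost surely
`η_t(0) = ∞`.
(b) This applies to a superlinear rate function. -/
theorem result :
    (∀ g : ℕ → ℝ, g 0 = 0 → Monotone g → Tendsto g atTop atTop →
      ¬ Summable (fun n => 1 / g n) →
      ∃ p : ℤ → ℝ, (∀ z, 0 ≤ p z) ∧ HasSum p 1 ∧
        ∃ η : ℤ → ℕ, FiniteDensity η ∧ Explodes g p η) ∧
    (∃ g : ℕ → ℝ, g 0 = 0 ∧ Monotone g ∧ Tendsto g atTop atTop ∧
      Tendsto (fun n => g n / n) atTop atTop ∧
      ∃ p : ℤ → ℝ, (∀ z, 0 ≤ p z) ∧ HasSum p 1 ∧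
        ∃ η : ℤ → ℕ, FiniteDensity η ∧ Explodes g p η) := by
  have main : ∀ g : ℕ → ℝ, g 0 = 0 → Monotone g → Tendsto g atTop atTop →
      ¬ Summable (fun n => 1 / g n) →
      ∃ p : ℤ → ℝ, (∀ z, 0 ≤ p z) ∧ HasSum p 1 ∧
        ∃ η : ℤ → ℕ, FiniteDensity η ∧ Explodes g p η := by
    intro g hg0 hgm htend hns
    have hg : ∀ n, 0 ≤ g n := fun n => hg0 ▸ hgm (Nat.zero_le n)
    obtain ⟨N, M, hN, hM⟩ := exists_params hg htend hns
    exact ⟨ker M, ker_nonneg M, ker_hasSum M, conf M, conf_density M, explodes hg0 hgm hN hM⟩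
  exact ⟨main, gSup, by simp [gSup], gSup_mono, gSup_tendsto, gSup_superlinear,
    main gSup (by simp [gSup]) gSup_mono gSup_tendsto gSup_not_summable⟩

end

end Pool.Agent.Results.MP_773c46_pr.ZeroRangeExplosion
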